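import Pool.Agent.helper91.HZ.Spec

/-!
# hz:FWD (MP_2e0e07_nt)
-/

set_option autoImplicit false

namespace Pool.Agent.HZ

open Matrix Polynomial Pool.Agent.GO Pool.Agent.AR Pool.Agent.RG MeasureTheory NumberField

universe u

/-- base change from `ZMod p` -/
noncomputable def FWD_bc {Γ : Type} [Group Γ] {m : Type} [Fintype m] [DecidableEq m] (p : ℕ)
    (κ : Type) [Field κ] [CharP κ p] (V : Γ →* Matrix m m (ZMod p)) : Γ →* Matrix m m κ :=
  (((ZMod.castHom (dvd_refl p) κ).mapMatrix : Matrix m m (ZMod p) →+* Matrix m m κ) :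
    Matrix m m (ZMod p) →* Matrix m m κ).comp V

theorem FWD_bc_apply {Γ : Type} [Group Γ] {m : Type} [Fintype m] [DecidableEq m] (p : ℕ)
    (κ : Type) [Field κ] [CharP κ p] (V : Γ →* Matrix m m (ZMod p)) (g : Γ) :
    FWD_bc p κ V g = (V g).map (ZMod.castHom (dvd_refl p) κ) := rfl

theorem FWD_bc_one {Γ : Type} [Group Γ] {m : Type} [Fintype m] [DecidableEq m] (p : ℕ)
    (κ : Type) [Field κ] [CharP κ p] (V : Γ →* Matrix m m (ZMod p)) (g : Γ)
    (h : FWD_bc p κ V g = 1) : V g = 1 := by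
  have hinj := ZMod.castHom_injective (n := p) κ
  have h1 : (V g).map (ZMod.castHom (dvd_refl p) κ) =
      (1 : Matrix m m (ZMod p)).map (ZMod.castHom (dvd_refl p) κ) := by
    rw [Matrix.map_one _ (map_zero _) (map_one _)]
    exact h
  ext a b
  exact hinj (congrFun (congrFun h1 a) b)

/-- a homomorphism with a kernel of finite index has finite range -/
theorem FWD_range {Γ M : Type} [Group Γ] [Monoid M] (f : Γ →* M) (K : Subgroup Γ)
    (hK : K.FiniteIndex) (hf : ∀ g ∈ K, f g = 1) : (Set.range f).Finite := by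
  have : Finite (Γ ⧸ K) := Subgroup.finite_quotient_of_finiteIndex
  refine Set.Finite.subset (Set.finite_range fun q : Γ ⧸ K => f q.out) ?_
  rintro _ ⟨g, rfl⟩
  refine ⟨(g : Γ ⧸ K), ?_⟩
  have h1 : ((g : Γ ⧸ K).out)⁻¹ * g ∈ K := by
    rw [← QuotientGroup.eq]
    exact QuotientGroup.out_eq' _
  have h2 : f g = f ((g : Γ ⧸ K).out * (((g : Γ ⧸ K).out)⁻¹ * g)) := by
    rw [mul_inv_cancel_left]
  show f ((g : Γ ⧸ K).out) = f g
  rw [h2, map_mul, hf _ h1, mul_one]

/-- an open subgroup of a compact group has finite index -/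
theorem FWD_open {Γ : Type} [Group Γ] [TopologicalSpace Γ] [IsTopologicalGroup Γ] [CompactSpace Γ]
    (U : Subgroup Γ) (hU : IsOpen (U : Set Γ)) : U.FiniteIndex := by
  have := Subgroup.quotient_finite_of_isOpen U hU
  exact Subgroup.finiteIndex_of_finite_quotient

theorem FWD_deg {Γ : Type} [Group Γ] [TopologicalSpace Γ] [IsTopologicalGroup Γ] [CompactSpace Γ]
    {F F' : Type} [Field F] [CommRing F'] {r : ℕ} {n : Fin r → ℕ}
    (V : (i : Fin r) → Γ →* Matrix (Fin (n i)) (Fin (n i)) F')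
    (ρ : Γ →* Matrix (Fin 2) (Fin 2) F) (h : IsOpen (ρ.ker : Set Γ)) : adDegree V ρ ≠ 0 := by
  have hle : ρ.ker ≤ adKer ρ := by
    intro g hg
    refine ⟨1, ?_⟩
    rw [one_smul]
    exact hg
  have h1 : (adKer ρ).FiniteIndex := FWD_open _ (Subgroup.isOpen_mono hle h)
  intro h0
  have h2 : (adKer ρ).relIndex ⊤ = 0 := Subgroup.relIndex_eq_zero_of_le_right le_top h0
  rw [Subgroup.relIndex_top_right] at h2
  exact h1.index_ne_zero h2

/-- the diagonal -/
def FWD_diag (J Γ : Type) [Group Γ] : Γ →* (J → Γ) where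
  toFun g := fun _ => g
  map_one' := rfl
  map_mul' _ _ := rfl

theorem FWD_ad {F Γ G m : Type} [Field F] [Group Γ] [Group G] [Fintype m] [DecidableEq m]
    (W : G →* Matrix m m F) (ρ : G →* Matrix (Fin 2) (Fin 2) F) (d : Γ →* G) (a b : ℕ)
    (h : AdSubquotient ⊤ ρ (tens W a b)) :
    AdSubquotient ⊤ (ρ.comp d) (tens (W.comp d) a b) := by
  have e : ∀ g, tens (W.comp d) a b g = tens W a b (d g) := by
    intro g
    unfold tens
    ext x y
    simp only [Matrix.of_apply, MonoidHom.comp_apply, map_inv]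
  obtain ⟨Q, hQ, π, hπ, heq⟩ := h
  refine ⟨Q, fun u _ x hx => ?_, π, hπ, fun u _ x => ?_⟩
  · rw [e]
    exact hQ (d u) (Subgroup.mem_top _) x hx
  · have h1 := heq (d u) (Subgroup.mem_top _) x
    have h2 : (ρ.comp d) u * π x * (ρ.comp d) u⁻¹ = ρ (d u) * π x * ρ (d u)⁻¹ := by
      simp only [MonoidHom.comp_apply, map_inv]
    rw [h2, ← h1]
    congr 1
    exact Subtype.ext (congrArg (fun M => M *ᵥ x.1) (e u))

/-- coefficients of the characteristic polynomial of an ultraproduct -/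
theorem FWD_char {J : Type} {κ : J → Type} [∀ j, Field (κ j)] {Γ : Type} [Group Γ] {m : Type}
    [Fintype m] [DecidableEq m] {k : Type} [Field k] (π : (∀ j, κ j) →+* k)
    (W : ∀ j, Γ →* Matrix m m (κ j)) (g : J → Γ) (l : ℕ) :
    (star π W g).charpoly.coeff l = π (fun j => (W j (g j)).charpoly.coeff l) := by
  have h1 : star π W g = (mt W g).map π := rfl
  rw [h1, Matrix.charpoly_map, Polynomial.coeff_map]
  congr 1
  ext j
  have h2 : W j (g j) = (mt W g).map (Pi.evalRingHom κ j) := rfl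
  rw [h2, Matrix.charpoly_map, Polynomial.coeff_map]
  rfl

theorem FWD (h1 : ULT_stmt) (h2 : UPF_stmt) (h3 : KCD_stmt) (h4 : INJ_stmt) (h5 : SPN_stmt)
    (h6 : LCJ_stmt) (h7 : ADS_stmt) (h8 : RDC_stmt) : FWD_stmt.{u} := by
  intro Γ Place E _ _ _ _ _ _ μ _ frob hd _ _ r n P Q i₀ hdet J p κ _ _ _ φ V ρ hR hinf
  have hne : ∀ j, adDegree (V j) (ρ j) ≠ 0 := fun j => FWD_deg (V j) (ρ j) (hR.openρ j)
  obtain ⟨𝒰, hlim, hdl, hfin⟩ := h1 p (fun j => adDegree (V j) (ρ j)) hR.tends hinf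
  obtain ⟨k, _, _, _, π, hUP⟩ := h2 𝒰 κ p hR.prime (fun j => inferInstance) hlim
  let B : ∀ j, (i : Fin r) → Γ →* Matrix (Fin (n i)) (Fin (n i)) (κ j) :=
    fun j i => FWD_bc (p j) (κ j) (V j i)
  let W : ∀ j, Γ →* Matrix (Σ i : Fin r, Fin (n i)) (Σ i : Fin r, Fin (n i)) (κ j) :=
    fun j => dirSum (B j)
  -- finite range
  have hfr : ∀ j, (Set.range (W j)).Finite := by
    intro j
    have hopen : IsOpen ((⨅ i, (V j i).ker : Subgroup Γ) : Set Γ) := by
      rw [Subgroup.coe_iInf]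
      exact isOpen_iInter_of_finite fun i => hR.openV j i
    refine FWD_range (W j) _ (FWD_open _ hopen) ?_
    intro g hg
    have hg' : ∀ i, V j i g = 1 := fun i => (Subgroup.mem_iInf.1 hg) i
    have e : (fun i => B j i g) = (1 : (i : Fin r) → Matrix (Fin (n i)) (Fin (n i)) (κ j)) := by
      funext i
      show FWD_bc (p j) (κ j) (V j i) g = 1
      rw [FWD_bc_apply, hg' i, Matrix.map_one _ (map_zero _) (map_one _)]
    show Matrix.blockDiagonal' (fun i => B j i g) = 1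
    rw [e, Matrix.blockDiagonal'_one]
  -- entries are natural numbers
  have hnat : ∀ j g a b, ∃ s : ℕ, W j g a b = (s : κ j) := by
    rintro j g ⟨i, a⟩ ⟨i', b⟩
    have : NeZero (p j) := ⟨(hR.prime j).ne_zero⟩
    by_cases hi : i = i'
    · subst hi
      refine ⟨(V j i g a b).val, ?_⟩
      show Matrix.blockDiagonal' (fun i => B j i g) ⟨i, a⟩ ⟨i, b⟩ = _
      rw [Matrix.blockDiagonal'_apply_eq]
      show ZMod.castHom (dvd_refl (p j)) (κ j) (V j i g a b) = _
      conv_lhs => rw [← ZMod.natCast_zmod_val (V j i g a b)]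
      rw [map_natCast]
    · refine ⟨0, ?_⟩
      show Matrix.blockDiagonal' (fun i => B j i g) ⟨i, a⟩ ⟨i', b⟩ = _
      rw [Matrix.blockDiagonal'_apply_ne _ _ _ hi, Nat.cast_zero]
  -- the number of elements
  have hcount : ∀ c : ℕ, ∀ᶠ j in (𝒰 : Filter J), ∃ s : Finset (Matrix (Fin 2) (Fin 2) (κ j)),
      c * s.card ≤ p j ∧ ∀ h, W j h = 1 → (ρ j h).det = 1 → ρ j h ∈ s := by
    intro c
    filter_upwards [hdl (2 * c)] with j hj
    obtain ⟨s, hs, hs'⟩ := h3 (V j) (ρ j) (hne j)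
    refine ⟨s, ?_, ?_⟩
    · calc c * s.card ≤ c * (2 * adDegree (V j) (ρ j)) := Nat.mul_le_mul_left c hs
        _ = 2 * c * adDegree (V j) (ρ j) := by ring
        _ ≤ p j := hj.le
    · intro h hW hdeth
      refine hs' h ?_ hdeth
      intro i
      apply FWD_bc_one (p j) (κ j) (V j i) h
      have hW' : Matrix.blockDiagonal' (fun i => B j i h) = 1 := hW
      have e1 : Matrix.blockDiagonal' (fun i => B j i h) =
          Matrix.blockDiagonal' (1 : (i : Fin r) → Matrix (Fin (n i)) (Fin (n i)) (κ j)) := by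
        rw [hW', Matrix.blockDiagonal'_one]
      have e2 := Matrix.blockDiagonal'_injective e1
      exact congrFun e2 i
  have hinj := h4 𝒰 p π hUP W ρ hnat hcount
  have hspn := h5 𝒰 p π hUP W ρ hfr hR.irr hR.ord
  have hlcj := h6 p π W ρ
  have hads := h7 (star π W) (star π ρ) (LL π p W ρ) hlcj hinj hspn
  have hads' := FWD_ad (star π W) (star π ρ) (FWD_diag J Γ) 1 1 hads
  let V' : (i : Fin r) → Γ →* Matrix (Fin (n i)) (Fin (n i)) k :=
    fun i => (star π (fun j => B j i)).comp (FWD_diag J Γ)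
  have hWV : (star π W).comp (FWD_diag J Γ) = dirSum V' := by
    ext g ⟨i, a⟩ ⟨i', b⟩
    show π (fun j => Matrix.blockDiagonal' (fun i => B j i g) ⟨i, a⟩ ⟨i', b⟩) =
      Matrix.blockDiagonal' (fun i => V' i g) ⟨i, a⟩ ⟨i', b⟩
    by_cases hi : i = i'
    · subst hi
      rw [Matrix.blockDiagonal'_apply_eq]
      show π (fun j => Matrix.blockDiagonal' (fun i => B j i g) ⟨i, a⟩ ⟨i, b⟩) =
        π (fun j => B j i g a b)
      congr 1
      funext j
      rw [Matrix.blockDiagonal'_apply_eq]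
    · rw [Matrix.blockDiagonal'_apply_ne _ _ _ hi]
      have e0 : (fun j => Matrix.blockDiagonal' (fun i => B j i g) ⟨i, a⟩ ⟨i', b⟩) =
          (0 : ∀ j, κ j) := by
        funext j
        rw [Matrix.blockDiagonal'_apply_ne _ _ _ hi]
        rfl
      rw [e0, map_zero]
  rw [hWV] at hads'
  obtain ⟨ι, hι⟩ := h8 𝒰 p π hUP φ
  obtain ⟨T₀, T, hT₀, hT, hTv, hcomp⟩ := hR.comp
  have hev : ∀ v ∉ T₀, ∀ᶠ j in (𝒰 : Filter J), v ∉ T j := fun v hv => hfin _ (hTv v hv)
  have hV : ∀ i, Compatible frob ι (P i) (V' i) := by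
    intro i
    refine ⟨T₀, hT₀, ?_⟩
    intro v hv s hs
    ext l
    show (star π (fun j => B j i) (fun _ => s)).charpoly.coeff l = _
    rw [FWD_char, Polynomial.coeff_map]
    symm
    apply hι
    filter_upwards [hev v hv] with j hj
    have h := (hcomp j v hj s hs).1 i l
    have e : (B j i s).charpoly.coeff l =
        ZMod.castHom (dvd_refl (p j)) (κ j) ((V j i s).charpoly.coeff l) := by
      show (FWD_bc (p j) (κ j) (V j i) s).charpoly.coeff l = _
      rw [FWD_bc_apply, Matrix.charpoly_map, Polynomial.coeff_map]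
    rw [e]
    exact h
  have hρ : Compatible frob ι Q ((star π ρ).comp (FWD_diag J Γ)) := by
    refine ⟨T₀, hT₀, ?_⟩
    intro v hv s hs
    ext l
    show (star π ρ (fun _ => s)).charpoly.coeff l = _
    rw [FWD_char, Polynomial.coeff_map]
    symm
    apply hι
    filter_upwards [hev v hv] with j hj
    exact (hcomp j v hj s hs).2 l
  exact rel_of_ad μ frob P Q i₀ hdet (nonNeglOpen_of_dense μ frob hd) ι V' _ hV hρ ⊤
    isOpen_univ 1 1 hads'

end Pool.Agent.HZ
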